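import Pool.Agent.Helper56.GC.Defs

/-!
# The example of four smooth sheets in the `4`-space: definitions

The coordinates are `z = X 0`, `x = X 1`, `y = X 2`, `t = X 3`.
-/

namespace Pool.Agent.Helper85.NT

open MvPowerSeries

/-- The four series `l = 2 z, 4 z + x, z + x, 3 z + (2 + t) x`. -/
noncomputable def exL : Fin 4 → MvPowerSeries (Fin 4) ℂ :=
  ![2 * X 0, 4 * X 0 + X 1, X 0 + X 1, 3 * X 0 + (2 + X 3) * X 1]

/-- The equation of `V`: the product of the four series `y - l ^ 2`. -/
noncomputable def exF : MvPowerSeries (Fin 4) ℂ := ∏ i, (X 2 - exL i ^ 2)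

/-- The ideal of `W`: the line `z = x = y = 0`. -/
noncomputable def exI : Ideal (MvPowerSeries (Fin 4) ℂ) := Ideal.span {X 0, X 1, X 2}

/-- The projection `(x, y, t)`. -/
noncomputable def exZ : Fin 3 → MvPowerSeries (Fin 4) ℂ := ![X 1, X 2, X 3]

end Pool.Agent.Helper85.NT
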