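import Pool.Agent.Helper85.SC.Final
import Pool.Agent.Helper85.NT.Defs
import Pool.Agent.Helper56.GC.Bridge

/-! The theorem on the example of four smooth sheets, with the definitions of `NT.Defs`. -/

namespace Pool.Agent.Helper85.NT

open MvPowerSeries
open Pool.Agent.Helper56.GC hiding exF exI

theorem main :
    ((∀ i, X 2 - exL i ^ 2 ∈ IsLocalRing.maximalIdeal (MvPowerSeries (Fin 4) ℂ) ∧
      X 2 - exL i ^ 2 ∉ IsLocalRing.maximalIdeal (MvPowerSeries (Fin 4) ℂ) ^ 2) ∧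
      IsConvergent exF ∧ (Ideal.span {exF}).IsRadical ∧ IsSmoothGerm 3 exI ∧
      singIdeal exF ≤ exI) ∧
    (Equi Convergent 2 4 exF exI ∧ EquiProj (LinearTransversal ℂ) 1 exF exI exZ) ∧
    (∀ z : Fin 3 → MvPowerSeries (Fin 4) ℂ, Transversal exF z →
      ¬ EquiProj (Formal ℂ) 1 exF exI z) ∧
    (∀ (z : Fin 3 → MvPowerSeries (Fin 4) ℂ) (v : Fin 4 → ℂ), LinIndep z →
      (∀ i, lin (z i) v = 0) → v 2 ≠ 0 →
        IsParams exF z ∧ Permissible exI z ∧ Transversal exF z) ∧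
    ∀ G : MvPolynomial (Fin 3 × {ν : Fin 4 →₀ ℕ // ν ≠ 0}) ℂ, G ≠ 0 →
      ∃ z : Fin 3 → MvPowerSeries (Fin 4) ℂ,
        (∀ i, IsConvergent (z i) ∧ constantCoeff (z i) = 0) ∧
        MvPolynomial.eval (fun p => coeff p.2.1 (z p.1)) G ≠ 0 ∧
        IsParams exF z ∧ Permissible exI z ∧ Transversal exF z ∧
        ¬ EquiProj (Formal ℂ) 1 exF exI z ∧
        ¬ EquiProj Convergent 1 exF exI z := by
  simp only [equiProj_iff, equi_iff]
  exact ⟨⟨Pool.Agent.Helper38.SC.exL_smooth, Pool.Agent.Helper38.SC.exF_convergent,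
      Pool.Agent.Helper38.SC.exF_radical, Pool.Agent.Helper38.SC.exI_smooth,
      Pool.Agent.Helper38.SC.exF_sing⟩,
    ⟨Pool.Agent.Helper85.SC.equi_convergent,
      Pool.Agent.Helper85.SC.equiProj_exZ (Pool.Agent.Helper38.GP.hasLin_linear ℂ)⟩,
    fun _ h => Pool.Agent.Helper85.SC.not_equiProj h,
    fun z _ hz hv hv2 => Pool.Agent.Helper38.SC.good_proj_ex z hz hv hv2,
    Pool.Agent.Helper38.SC.generic_ex⟩

end Pool.Agent.Helper85.NT
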